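import Pool.Agent.V1178.TB.Lp

/-!
Three-balls inequality for complex-valued harmonic functions at the Hadamard exponent: in dimension
`n ≥ 2` and for radii `0 < ρ < r < 1` a finite constant exists if and only if `n = 2`.
-/

namespace Pool.Agent.Results.MP_1096cc_an.HadamardExponent

open Pool.Agent.V1178.TB

theorem result : ∀ n : ℕ, 2 ≤ n → ∀ ρ r : ℝ, 0 < ρ → ρ < r → r < 1 →
    ((∃ K : ℝ, ∀ u ∈ H n, sn u r ≤ K * sn u ρ ^ (Real.log r / Real.log ρ)) ↔ n = 2) :=
  main_iff

end Pool.Agent.Results.MP_1096cc_an.HadamardExponent
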